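import Pool.Agent.H22.OutF.AComp

/-!
MP_57eb62_al (Q1, outer automorphisms against automorphisms).

For all `n` and all `N ≥ n + 2` the conjugacy problem of `Aut (F_n)` is many-one reducible both to
the conjugacy problem of `Aut (F_N)` and to the one of `Out (F_N)`; for `n ≥ 2` and `N ≥ 2 n + 1`
the conjugacy problem of `Out (F_n)` is disjunctively truth-table reducible to the one of
`Aut (F_N)`.  Consequently Q1 is equivalent to the solvability of the conjugacy problem of
`Aut (F_n)` for all `n`, and of `Aut (F_n)` for arbitrarily large `n`.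
-/

set_option autoImplicit false

namespace Pool.Agent.Results.MP_57eb62_al.AutEquivalence

/-- A tuple of `n` words in the letters of the free group of rank `n`. -/
abbrev Words (n : ℕ) : Type := Fin n → List (Fin n × Bool)

/-- The word `f i` represents the image of the `i`-th basis element under `φ`, for all `i`. -/
def Describes {n : ℕ} (f : Words n) (φ : MulAut (FreeGroup (Fin n))) : Prop :=
  ∀ i, FreeGroup.mk (f i) = φ (FreeGroup.of i)

/-- The automorphisms `φ` and `ψ` are conjugate in the automorphism group. -/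
def AutConj {n : ℕ} (φ ψ : MulAut (FreeGroup (Fin n))) : Prop :=
  ∃ χ : MulAut (FreeGroup (Fin n)), ∀ x : FreeGroup (Fin n), χ (φ (χ⁻¹ x)) = ψ x

/-- The classes of `φ` and `ψ` are conjugate in the outer automorphism group: `χ φ χ⁻¹` is `ψ`
followed by an inner automorphism. -/
def OutConj {n : ℕ} (φ ψ : MulAut (FreeGroup (Fin n))) : Prop :=
  ∃ (χ : MulAut (FreeGroup (Fin n))) (w : FreeGroup (Fin n)),
    ∀ x : FreeGroup (Fin n), χ (φ (χ⁻¹ x)) = w * ψ x * w⁻¹

/-- The conjugacy problem of `Aut (F_n)` is solvable. -/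
def AutSolvable (n : ℕ) : Prop :=
  ∃ d : Words n × Words n → Bool, Computable d ∧
    ∀ (φ ψ : MulAut (FreeGroup (Fin n))) (f g : Words n), Describes f φ → Describes g ψ →
      (d (f, g) = true ↔ AutConj φ ψ)

/-- The conjugacy problem of `Out (F_n)` is solvable. -/
def OutSolvable (n : ℕ) : Prop :=
  ∃ d : Words n × Words n → Bool, Computable d ∧
    ∀ (φ ψ : MulAut (FreeGroup (Fin n))) (f g : Words n), Describes f φ → Describes g ψ →
      (d (f, g) = true ↔ OutConj φ ψ)

/-- One primitive recursive function turns a pair of tuples of words describing automorphisms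
`φ`, `ψ` of the free group of rank `n` into a pair of tuples describing automorphisms `φ'`, `ψ'`
of the free group of rank `N`, such that `φ`, `ψ` are conjugate in `Aut (F_n)` if and only if
`φ'`, `ψ'` are conjugate in `Aut (F_N)`, if and only if their classes are conjugate in
`Out (F_N)`. -/
def AutReduces (n N : ℕ) : Prop :=
  ∃ R : Words n × Words n → Words N × Words N, Primrec R ∧
    ∀ (φ ψ : MulAut (FreeGroup (Fin n))) (f g : Words n), Describes f φ → Describes g ψ →
      ∃ φ' ψ' : MulAut (FreeGroup (Fin N)),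
        Describes (R (f, g)).1 φ' ∧ Describes (R (f, g)).2 ψ' ∧
          (AutConj φ ψ ↔ AutConj φ' ψ') ∧ (AutConj φ ψ ↔ OutConj φ' ψ')

/-- A primitive recursive function turns a pair of tuples of words describing automorphisms `φ`,
`ψ` of the free group of rank `n` into a finite list of pairs of tuples describing automorphisms
of the free group of rank `N`, such that the classes of `φ` and `ψ` are conjugate in `Out (F_n)`
if and only if the automorphisms of some pair in the list are conjugate in `Aut (F_N)`. -/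
def OutReducesToAut (n N : ℕ) : Prop :=
  ∃ L : Words n × Words n → List (Words N × Words N), Primrec L ∧
    ∀ (φ ψ : MulAut (FreeGroup (Fin n))) (f g : Words n), Describes f φ → Describes g ψ →
      (∀ p ∈ L (f, g), ∃ φ' ψ' : MulAut (FreeGroup (Fin N)),
        Describes p.1 φ' ∧ Describes p.2 ψ') ∧
      (OutConj φ ψ ↔ ∃ p ∈ L (f, g), ∃ φ' ψ' : MulAut (FreeGroup (Fin N)),
        Describes p.1 φ' ∧ Describes p.2 ψ' ∧ AutConj φ' ψ')

open Pool.Agent.H22.OutF in
/-- The conjugacy problems of the groups `Aut (F_n)` and `Out (F_n)` reduce to each other. -/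
theorem result :
    (∀ n N : ℕ, n + 2 ≤ N →
      AutReduces n N ∧ (AutSolvable N → AutSolvable n) ∧ (OutSolvable N → AutSolvable n)) ∧
    (∀ n N : ℕ, 2 ≤ n → 2 * n + 1 ≤ N →
      OutReducesToAut n N ∧ (AutSolvable N → OutSolvable n)) ∧
    ((∀ n, OutSolvable n) ↔ ∀ n, AutSolvable n) ∧
    ((∀ n, AutSolvable n) ↔ ∀ M, ∃ N, M ≤ N ∧ AutSolvable N) := by
  refine ⟨fun n N hN => ⟨red_aut n N hN, asol_of_asol n N hN, asol_of_osol n N hN⟩,
    fun n N hn hN => ⟨?_, osol_of_asol n N hN⟩,
    ⟨fun h n => asol_of_osol n (n + 2) le_rfl (h _),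
      fun h n => osol_of_asol n (2 * n + 1) le_rfl (h _)⟩,
    ⟨fun h M => ⟨M, le_rfl, h M⟩, fun h n => ?_⟩⟩
  · obtain ⟨L, hL, h⟩ := red_all n N hn hN
    refine ⟨L, hL, fun φ ψ f g hf hg => ⟨fun p hp => ?_, fun hc => ?_, ?_⟩⟩
    · obtain ⟨φ', ψ', h1, h2, -⟩ := (h φ ψ f g hf hg).1 p hp
      exact ⟨φ', ψ', h1, h2⟩
    · exact (h φ ψ f g hf hg).2 hc
    · rintro ⟨p, hp, φ', ψ', h1, h2, h3⟩
      obtain ⟨φ₁, ψ₁, h4, h5, h6⟩ := (h φ ψ f g hf hg).1 p hp
      have e1 : φ' = φ₁ := rep_unique p.1 φ' φ₁ h1 h4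
      have e2 : ψ' = ψ₁ := rep_unique p.2 ψ' ψ₁ h2 h5
      rw [e1, e2] at h3
      exact h6 (AConj.oconj h3)
  · obtain ⟨N, hN, h1⟩ := h (n + 2)
    exact asol_of_asol n N hN h1

end Pool.Agent.Results.MP_57eb62_al.AutEquivalence
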