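import Pool.Agent.H22.OutF.Main

/-!
MP_57eb62_al (Q1, relation between the ranks).

For all `n ≥ 2` and all `N ≥ 2 n + 1` the conjugacy problem of `Out (F_n)` reduces to the
conjugacy problem of `Out (F_N)`, by a primitive recursive disjunctive truth-table reduction.
Consequently Q1 holds (for all ranks) if and only if the conjugacy problem of `Out (F_N)` is
solvable for arbitrarily large ranks `N`.
-/

set_option autoImplicit false

namespace Pool.Agent.Results.MP_57eb62_al.RankMonotone

/-- A tuple of `n` words in the letters of the free group of rank `n`. -/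
abbrev Words (n : ℕ) : Type := Fin n → List (Fin n × Bool)

/-- The word `f i` represents the image of the `i`-th basis element under `φ`, for all `i`. -/
def Describes {n : ℕ} (f : Words n) (φ : MulAut (FreeGroup (Fin n))) : Prop :=
  ∀ i, FreeGroup.mk (f i) = φ (FreeGroup.of i)

/-- The classes of `φ` and `ψ` are conjugate in the outer automorphism group: `χ φ χ⁻¹` is `ψ`
followed by an inner automorphism. -/
def OutConj {n : ℕ} (φ ψ : MulAut (FreeGroup (Fin n))) : Prop :=
  ∃ (χ : MulAut (FreeGroup (Fin n))) (w : FreeGroup (Fin n)),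
    ∀ x : FreeGroup (Fin n), χ (φ (χ⁻¹ x)) = w * ψ x * w⁻¹

/-- The conjugacy problem of `Out (F_n)` is solvable. -/
def OutSolvable (n : ℕ) : Prop :=
  ∃ d : Words n × Words n → Bool, Computable d ∧
    ∀ (φ ψ : MulAut (FreeGroup (Fin n))) (f g : Words n), Describes f φ → Describes g ψ →
      (d (f, g) = true ↔ OutConj φ ψ)

/-- The conjugacy problem of `Out (F_n)` reduces to the one of `Out (F_N)`: a primitive recursive
function turns a pair of tuples of words describing automorphisms `φ`, `ψ` of the free group of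
rank `n` into a finite list of pairs of tuples describing automorphisms of the free group of rank
`N`, such that the classes of `φ` and `ψ` are conjugate if and only if the classes of some pair
in the list are conjugate. -/
def Reduces (n N : ℕ) : Prop :=
  ∃ L : Words n × Words n → List (Words N × Words N), Primrec L ∧
    ∀ (φ ψ : MulAut (FreeGroup (Fin n))) (f g : Words n), Describes f φ → Describes g ψ →
      (∀ p ∈ L (f, g), ∃ φ' ψ' : MulAut (FreeGroup (Fin N)),
        Describes p.1 φ' ∧ Describes p.2 ψ') ∧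
      (OutConj φ ψ ↔ ∃ p ∈ L (f, g), ∃ φ' ψ' : MulAut (FreeGroup (Fin N)),
        Describes p.1 φ' ∧ Describes p.2 ψ' ∧ OutConj φ' ψ')

open Pool.Agent.H22.OutF in
/-- The conjugacy problems of the groups `Out (F_n)` are monotone in the rank (up to a factor
two), and Q1 only depends on large ranks. -/
theorem result :
    (∀ n N : ℕ, 2 ≤ n → 2 * n + 1 ≤ N → Reduces n N ∧ (OutSolvable N → OutSolvable n)) ∧
    ((∀ n, OutSolvable n) ↔ ∀ M, ∃ N, M ≤ N ∧ OutSolvable N) := by
  refine ⟨fun n N hn hN => ⟨?_, fun h => osol_of_osol n N hN h⟩,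
    fun h M => ⟨M, le_rfl, h M⟩, fun h n => ?_⟩
  · obtain ⟨L, hL, h⟩ := red_all n N hn hN
    refine ⟨L, hL, fun φ ψ f g hf hg => ⟨fun p hp => ?_, fun hc => ?_, ?_⟩⟩
    · obtain ⟨φ', ψ', h1, h2, -⟩ := (h φ ψ f g hf hg).1 p hp
      exact ⟨φ', ψ', h1, h2⟩
    · obtain ⟨p, hp, φ', ψ', h1, h2, h3⟩ := (h φ ψ f g hf hg).2 hc
      exact ⟨p, hp, φ', ψ', h1, h2, h3.oconj⟩
    · rintro ⟨p, hp, φ', ψ', h1, h2, h3⟩
      obtain ⟨φ₁, ψ₁, h4, h5, h6⟩ := (h φ ψ f g hf hg).1 p hp
      have e1 : φ' = φ₁ := rep_unique p.1 φ' φ₁ h1 h4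
      have e2 : ψ' = ψ₁ := rep_unique p.2 ψ' ψ₁ h2 h5
      rw [e1, e2] at h3
      exact h6 h3
  · obtain ⟨N, hN, h1⟩ := h (2 * n + 1)
    exact osol_of_osol n N hN h1

end Pool.Agent.Results.MP_57eb62_al.RankMonotone
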